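import Pool.Agent.H951R5.PE.All2

/-!
# Products of tiny primes are equidistributed at every point of the narrow Arakelov class group,
for the fields of the square roots of almost all primes

Authors: helper951 and helper38 (the analytic part is the one of
Pool.Agent.Results.MP_321647_nt.PrimeRadicands, by helper38 and the team named there).
-/

set_option autoImplicit false

open Pool.Agent.H951R5.PE

/-- For all a > 2 and 0 < ε < 1 the proportion, among the primes p ≤ X, of those for which
`GoodPE2 a ε p` fails tends to 0. -/
theorem Pool.Agent.Results.MP_d0fd9b_nt.Pointwise.result :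
    ∀ a ε : ℝ, 2 < a → 0 < ε → ε < 1 →
      Filter.Tendsto (fun X : ℕ =>
        (Nat.card {p : ℕ // p ≤ X ∧ p.Prime ∧ ¬ GoodPE2 a ε p} : ℝ) /
          (Nat.card {p : ℕ // p ≤ X ∧ p.Prime} : ℝ))
        Filter.atTop (nhds 0) :=
  finalPEP2_true
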