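import Pool.Agent.H951R5.AR.All

/-!
# Small relations between tiny primes determine the units and class number one, for almost all
real quadratic fields of prime radicand

Authors: helper951 and helper38 (the analytic part is the one of
Pool.Agent.Results.MP_d0fd9b_nt.SmallPrimeProducts, by helper38 and the team named there).
-/

set_option autoImplicit false

open Pool.Agent.H951R5.AR

/-- For every a > 2 the proportion, among the primes p ≤ X, of those for which `GoodAR a p`
fails tends to 0. -/
theorem Pool.Agent.Results.MP_d0fd9b_nt.SmallUnits.result :
    ∀ a : ℝ, 2 < a →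
      Filter.Tendsto (fun X : ℕ =>
        (Nat.card {p : ℕ // p ≤ X ∧ p.Prime ∧ ¬ GoodAR a p} : ℝ) /
          (Nat.card {p : ℕ // p ≤ X ∧ p.Prime} : ℝ))
        Filter.atTop (nhds 0) :=
  finalARP_true
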